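import Pool.Agent.H95.AS.Main

/-!
# Artin–Schreier covers of affine spaces
-/

set_option autoImplicit false

open CategoryTheory CategoryTheory.Limits AlgebraicGeometry MvPolynomial TensorProduct

namespace Pool.Agent.H95.AS

open Pool.Agent.Y116.UV Pool.Agent.Z125.UN

section prime

variable (k : Type) [Field k] (p : ℕ) [hp : Fact p.Prime] [CharP k p]

/-- The prime field as a subset. -/
noncomputable def Fp : Finset k :=
  Finset.univ.map ⟨ZMod.castHom (dvd_refl p) k, (ZMod.castHom (dvd_refl p) k).injective⟩

lemma card_Fp : (Fp k p).card = p := by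
  rw [Fp, Finset.card_map, Finset.card_univ, ZMod.card]

lemma prod_Fp : (∏ a : ZMod p, (Polynomial.X - Polynomial.C a) : Polynomial (ZMod p)) =
    Polynomial.X ^ p - Polynomial.X := by
  have h1 : (Polynomial.X ^ p - Polynomial.X : Polynomial (ZMod p)).roots = Finset.univ.val := by
    have h := FiniteField.roots_X_pow_card_sub_X (ZMod p)
    rwa [ZMod.card] at h
  have h2 : (Polynomial.X ^ p - Polynomial.X : Polynomial (ZMod p)).Monic := by
    apply Polynomial.monic_X_pow_sub
    rw [Polynomial.degree_X]
    exact_mod_cast hp.out.one_lt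
  have h3 : (Polynomial.X ^ p - Polynomial.X : Polynomial (ZMod p)).natDegree = p :=
    FiniteField.X_pow_card_sub_X_natDegree_eq _ hp.out.one_lt
  have h4 := Polynomial.prod_multiset_X_sub_C_of_monic_of_roots_card_eq h2 (by
    rw [h1, h3]
    simp [ZMod.card])
  rw [h1] at h4
  exact h4

lemma sp_Fp (D : Type) [CommRing D] [Algebra k D] :
    sp D (Fp k p) = Polynomial.X ^ p - Polynomial.X := by
  let i : ZMod p →+* D := (algebraMap k D).comp (ZMod.castHom (dvd_refl p) k)
  have h := congrArg (Polynomial.map i) (prod_Fp p)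
  rw [Polynomial.map_prod] at h
  rw [sp, Fp, Finset.prod_map]
  simp only [Polynomial.map_sub, Polynomial.map_X, Polynomial.map_C, Polynomial.map_pow] at h
  exact h

/-- the Artin–Schreier covers are among the covers -/
noncomputable def asE {A : Type} [CommRing A] [Algebra k A] {m : ℕ} (f : Fin m → A) :
    Cov (Fp k p) f ≃ₐ[k] ASRing p f :=
  AdjoinRoot.algEquivOfEq k _ _ (by rw [sp_Fp])

end prime

section etale

variable {k : Type} [Field k] (p : ℕ) [hp : Fact p.Prime] [CharP k p] {A : Type} [CommRing A]
  [Algebra k A] {m : ℕ} (f : Fin m → A)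

omit [CharP k p] [Algebra k A] in
lemma as_monic : (Polynomial.X ^ p - Polynomial.X - Polynomial.C (lin f) :
    Polynomial (MvPolynomial (Fin m) A)).Monic := by
  nontriviality A
  rw [sub_sub]
  apply Polynomial.monic_X_pow_sub
  refine lt_of_le_of_lt (Polynomial.degree_add_le _ _) ?_
  rw [Polynomial.degree_X]
  refine max_lt (by exact_mod_cast hp.out.one_lt) (Polynomial.degree_C_le.trans_lt ?_)
  exact_mod_cast hp.out.pos

include k in
/-- the Artin–Schreier cover is étale -/
lemma as_etale : Algebra.Etale (MvPolynomial (Fin m) A) (ASRing p f) := by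
  let M := MvPolynomial (Fin m) A
  have hcp : (p : Polynomial M) = 0 := by
    have h1 : (p : k) = 0 := CharP.cast_eq_zero k p
    have h2 := congrArg (algebraMap k (Polynomial M)) h1
    rwa [map_natCast, map_zero] at h2
  let Q : StandardEtalePair M :=
    { f := Polynomial.X ^ p - Polynomial.X - Polynomial.C (lin f)
      monic_f := as_monic p f
      g := 1
      cond := ⟨-1, 0, 0, by
        have h0 : (Polynomial.C (p : M) : Polynomial M) = 0 := by
          rw [← hcp]; simp
        simp [Polynomial.derivative_X_pow, h0]⟩ }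
  have e := Q.equivAwayAdjoinRoot
  have e2 : AdjoinRoot Q.f ≃ₐ[AdjoinRoot Q.f] Localization.Away (AdjoinRoot.mk Q.f Q.g) :=
    IsLocalization.atUnits _ (Submonoid.powers (AdjoinRoot.mk Q.f Q.g)) (by
      rintro _ ⟨n, rfl⟩
      change IsUnit ((AdjoinRoot.mk Q.f 1) ^ n)
      rw [map_one, one_pow]
      exact isUnit_one)
  have h1 : Algebra.Etale M Q.Ring := inferInstance
  exact Algebra.Etale.of_equiv (e.trans (e2.restrictScalars M).symm)

omit [CharP k p] [Algebra k A] in
/-- the cover is finite and free of rank `p` -/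
lemma as_free : Module.Finite (MvPolynomial (Fin m) A) (ASRing p f) ∧
    Module.Free (MvPolynomial (Fin m) A) (ASRing p f) :=
  ⟨(as_monic p f).finite_adjoinRoot, (as_monic p f).free_adjoinRoot⟩

omit [CharP k p] [Algebra k A] in
lemma as_rank [Nontrivial A] : Module.finrank (MvPolynomial (Fin m) A) (ASRing p f) = p := by
  have h := (AdjoinRoot.powerBasis' (as_monic p f)).finrank
  rw [h, AdjoinRoot.powerBasis'_dim, sub_sub]
  have h1 : (Polynomial.X + Polynomial.C (lin f) : Polynomial (MvPolynomial (Fin m) A)).degree <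
      (Polynomial.X ^ p : Polynomial (MvPolynomial (Fin m) A)).degree := by
    rw [Polynomial.degree_X_pow]
    refine lt_of_le_of_lt (Polynomial.degree_add_le _ _) ?_
    rw [Polynomial.degree_X]
    refine max_lt (by exact_mod_cast hp.out.one_lt) (Polynomial.degree_C_le.trans_lt ?_)
    exact_mod_cast hp.out.pos
  rw [Polynomial.natDegree_eq_of_degree_eq (Polynomial.degree_sub_eq_left_of_degree_lt h1),
    Polynomial.natDegree_X_pow]

end etale

end Pool.Agent.H95.AS
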