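import Pool.Agent.H95.AS.Ast
import Pool.Agent.H95.L.N882_UE_Bil
import Pool.Agent.H95.L.Z125_UN_Dim2
import Pool.Agent.H95.L.Q282_UZ_Sys
import Pool.Agent.H95.L.N882_UE_Tb

/-!
# Corollaries for all properties of schemes with the closure properties `Fla`
-/

set_option autoImplicit false

open CategoryTheory CategoryTheory.Limits AlgebraicGeometry MvPolynomial TensorProduct

namespace Pool.Agent.H95.AS

open Pool.Agent.Y116.UV Pool.Agent.Z125.UN Pool.Agent.Q282.UK Pool.Agent.Q282.UZ

variable {k : Type} [Field k]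

variable {P : Sch k → Prop} (hP : Fla P)

include hP

lemma p_space (σ : Type) [Fintype σ] : P (aff k (MvPolynomial σ k)) :=
  iso_alg hP.toUni (renameEquiv k (Fintype.equivFin σ).symm) (hP.space _)

theorem covS_iff {σ : Type} [Fintype σ] (S : Finset k) (hS : 2 ≤ S.card) {m : ℕ}
    (f : Fin m → MvPolynomial σ k) : P (covS S f) ↔ P (zeroS f) :=
  cov_iff hP (p_space hP σ) S hS f

theorem asS_iff (p : ℕ) [hp : Fact p.Prime] [CharP k p] {σ : Type} [Fintype σ] {m : ℕ}
    (f : Fin m → MvPolynomial σ k) : P (asS p f) ↔ P (zeroS f) := by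
  rw [← covS_iff hP (Fp k p) (by rw [card_Fp]; exact hp.out.two_le) f]
  have h1 : Algebra.FiniteType k (ASRing p f) :=
    Algebra.FiniteType.equiv inferInstance (asE k p f)
  exact ⟨iso_alg hP.toUni (asE k p f).symm, iso_alg hP.toUni (asE k p f)⟩

/-- zero schemes of dimension at most `d`, for all numbers of variables -/
theorem zeroS_dim {d : ℕ} (h : ∀ X : Sch k, FT True X → topologicalKrullDim X.left ≤ d → P X)
    {n m : ℕ} (hn : n ≤ d + 1) (f : Fin m → MvPolynomial (Fin n) k) : P (zeroS f) := by
  have h' : ∀ (A : Type) [CommRing A] [Algebra k A] [Algebra.FiniteType k A],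
      ringKrullDim A ≤ d → P (aff k A) := by
    intro A _ _ _ hA
    exact h _ (ft_aff True) (by rw [topDim_aff]; exact hA)
  rcases Nat.lt_or_ge d n with h1 | h1
  · obtain rfl : n = d + 1 := by omega
    exact dim_to_closed hP.toBnd h' _
  · apply h'
    refine (ringKrullDim_quotient_le _).trans ?_
    rw [MvPolynomial.ringKrullDim_of_isNoetherianRing, ringKrullDim_eq_zero_of_field]
    simp
    exact_mod_cast h1

/-- Schemes of dimension at most `d`, and coverings. -/
theorem dim_cov [PerfectField k] (S : Finset k) (hS : 2 ≤ S.card) (d : ℕ) :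
    (∀ X : Sch k, FT True X → topologicalKrullDim X.left ≤ d → P X) ↔
      ∀ (a b c : ℕ) (t : Fin a → Fin b → Fin c → k), c ≤ d + 2 → P (covS S (bq t)) := by
  rw [Pool.Agent.N882.UE.dim_bil hP.toBnd d]
  refine forall_congr' fun a => forall_congr' fun b => forall_congr' fun c => forall_congr' fun t =>
    forall_congr' fun _ => (covS_iff hP S hS (bq t)).symm

theorem dim_as [PerfectField k] (p : ℕ) [Fact p.Prime] [CharP k p] (d : ℕ) :
    (∀ X : Sch k, FT True X → topologicalKrullDim X.left ≤ d → P X) ↔
      ∀ (a b c : ℕ) (t : Fin a → Fin b → Fin c → k), c ≤ d + 2 → P (asS p (bq t)) := by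
  rw [Pool.Agent.N882.UE.dim_bil hP.toBnd d]
  refine forall_congr' fun a => forall_congr' fun b => forall_congr' fun c => forall_congr' fun t =>
    forall_congr' fun _ => (asS_iff hP p (bq t)).symm

/-- All schemes over a prime field, and coverings with at most three monomials for every variable
`x_l`. -/
theorem three_cov (hk : Function.Surjective (Int.cast : ℤ → k)) (S : Finset k) (hS : 2 ≤ S.card) :
    (∀ X : Sch k, FT True X → P X) ↔
      ∀ (a b c : ℕ) (E : Fin c → Finset (Fin a × Fin b)), (∀ l, (E l).card ≤ 3) →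
        P (covS S (bf k E)) := by
  rw [three_iff (short_presents hk) (Pool.Agent.N882.UE.clo_of_bnd hP.toBnd)]
  refine forall_congr' fun a => forall_congr' fun b => forall_congr' fun c => forall_congr' fun E =>
    forall_congr' fun _ => (covS_iff hP S hS _).symm

theorem three_as (hk : Function.Surjective (Int.cast : ℤ → k)) (p : ℕ) [Fact p.Prime] [CharP k p] :
    (∀ X : Sch k, FT True X → P X) ↔
      ∀ (a b c : ℕ) (E : Fin c → Finset (Fin a × Fin b)), (∀ l, (E l).card ≤ 3) →
        P (asS p (bf k E)) := by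
  rw [three_iff (short_presents hk) (Pool.Agent.N882.UE.clo_of_bnd hP.toBnd)]
  refine forall_congr' fun a => forall_congr' fun b => forall_congr' fun c => forall_congr' fun E =>
    forall_congr' fun _ => (asS_iff hP p _).symm

omit hP in
lemma as_smooth (p : ℕ) [Fact p.Prime] [CharP k p] {σ : Type} [Finite σ] {m : ℕ}
    (f : Fin m → MvPolynomial σ k) : Smooth (asS p f).hom := by
  have h1 : Algebra.Etale (MvPolynomial (Fin m) (MvPolynomial σ k)) (ASRing p f) :=
    as_etale (k := k) p f
  have h3 : Algebra.Smooth k (MvPolynomial σ k) := ⟨inferInstance, inferInstance⟩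
  have h4 : Algebra.Smooth (MvPolynomial σ k) (MvPolynomial (Fin m) (MvPolynomial σ k)) :=
    ⟨inferInstance, inferInstance⟩
  have h2 : Algebra.Smooth k (MvPolynomial (Fin m) (MvPolynomial σ k)) :=
    Algebra.Smooth.comp k (MvPolynomial σ k) _
  exact smooth_aff (Algebra.Smooth.comp k (MvPolynomial (Fin m) (MvPolynomial σ k)) (ASRing p f))

end Pool.Agent.H95.AS
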