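import Pool.Agent.H95.AS.Clo
import Pool.Agent.H95.L.Z125_UN_Bnd
import Pool.Agent.H95.L.Z125_UN_Dim

/-!
# Disjoint unions
-/

set_option autoImplicit false

open CategoryTheory CategoryTheory.Limits AlgebraicGeometry MvPolynomial TensorProduct

namespace Pool.Agent.H95.AS

open Pool.Agent.Y116.UV Pool.Agent.Z125.UN

variable {k : Type} [Field k]

section crt

variable (D : Type) [CommRing D] [Algebra k D]

/-- Chinese remainder theorem -/
noncomputable def crt (T : Finset k) (c : k) (hc : c ∉ T) :
    AdjoinRoot (sp D (Finset.cons c T hc)) ≃+* D × AdjoinRoot (sp D T) :=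
  (Ideal.quotEquivOfEq (by
      rw [sp, Finset.prod_cons, ← Ideal.span_singleton_mul_span_singleton]
      rfl)).trans
    ((Ideal.quotientMulEquivQuotientProd
      (Ideal.span {Polynomial.X - Polynomial.C (algebraMap k D c)}) (Ideal.span {sp D T}) (by
        rw [Ideal.isCoprime_span_singleton_iff, sp]
        apply IsCoprime.prod_right
        intro c' hc'
        apply Polynomial.isCoprime_X_sub_C_of_isUnit_sub
        rw [← map_sub]
        apply IsUnit.map
        rw [isUnit_iff_ne_zero, sub_ne_zero]
        rintro rfl
        exact hc hc')).trans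
      (RingEquiv.prodCongr (Polynomial.quotientSpanXSubCAlgEquiv _).toRingEquiv
        (RingEquiv.refl _)))

/-- Chinese remainder theorem -/
noncomputable def crtA (T : Finset k) (c : k) (hc : c ∉ T) :
    AdjoinRoot (sp D (Finset.cons c T hc)) ≃ₐ[k] D × AdjoinRoot (sp D T) :=
  AlgEquiv.ofRingEquiv (f := crt D T c hc) (by
    intro r
    ext
    · change (Polynomial.C (algebraMap k D r)).eval _ = algebraMap k D r
      rw [Polynomial.eval_C]
    · rfl)

end crt

/-- Properties of schemes over `k` which are closed under closed-open decompositions, under `𝔾_m`- and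
Jouanolou bundles, and moreover under the passage to open and closed subschemes and under flat morphisms
with affine spaces as fibres, in both directions. -/
structure Fla (P : Sch k → Prop) : Prop extends Bnd True P where
  clopen : ∀ {Z X : Sch k} (i : Z ⟶ X), FT True X → IsClosedImmersion i.left →
    IsOpenImmersion i.left → P X → P Z
  fibres : ∀ {V S : Sch k} (q : V ⟶ S) (r : ℕ), FT True V → FT True S → Flat q.left →
    AffineFibres q.left r → (P S ↔ P V)

variable {P : Sch k → Prop} (hP : Fla P)

section prod

variable (C D : Type) [CommRing C] [CommRing D] [Algebra k C] [Algebra k D]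

lemma open_fst : IsOpenImmersion (affMap (AlgHom.fst k C D)).left := by
  refine (isOpenImmersion_SpecMap_iff_of_surjective
    (CommRingCat.ofHom (AlgHom.fst k C D).toRingHom) Prod.fst_surjective).mpr
      ⟨(0, 1), by ext <;> simp, ?_⟩
  ext z
  rw [RingHom.mem_ker, Ideal.mem_span_singleton]
  constructor
  · intro h
    refine ⟨z, ?_⟩
    have h2 : z.1 = 0 := h
    ext <;> simp [h2]
  · rintro ⟨y, rfl⟩
    change ((0, 1) * y : C × D).1 = 0
    simp

lemma open_snd : IsOpenImmersion (affMap (AlgHom.snd k C D)).left := by
  refine (isOpenImmersion_SpecMap_iff_of_surjective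
    (CommRingCat.ofHom (AlgHom.snd k C D).toRingHom) Prod.snd_surjective).mpr
      ⟨(1, 0), by ext <;> simp, ?_⟩
  ext z
  rw [RingHom.mem_ker, Ideal.mem_span_singleton]
  constructor
  · intro h
    refine ⟨z, ?_⟩
    have h2 : z.2 = 0 := h
    ext <;> simp [h2]
  · rintro ⟨y, rfl⟩
    change ((1, 0) * y : C × D).2 = 0
    simp

lemma triple_prod : IsTriple (affMap (AlgHom.fst k C D)) (affMap (AlgHom.snd k C D)) where
  closed := closed_affMap _ Prod.fst_surjective
  opened := open_snd C D
  compl := by
    rw [range_affMap _ Prod.fst_surjective, range_affMap _ Prod.snd_surjective]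
    ext x
    change (∀ a : C × D, a.1 = 0 → a ∈ x.asIdeal) ↔ ¬ (∀ a : C × D, a.2 = 0 → a ∈ x.asIdeal)
    constructor
    · intro h h'
      apply x.isPrime.ne_top
      rw [Ideal.eq_top_iff_one]
      have h1 : (1 : C × D) = (0, 1) + (1, 0) := by ext <;> simp
      rw [h1]
      exact x.asIdeal.add_mem (h _ rfl) (h' _ rfl)
    · intro h
      by_contra h'
      have h1 : ((1, 0) : C × D) * (0, 1) ∈ x.asIdeal := by
        have : ((1, 0) : C × D) * (0, 1) = 0 := by ext <;> simp
        rw [this]
        exact x.asIdeal.zero_mem
      rcases x.isPrime.mem_or_mem h1 with h2 | h2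
      · apply h
        intro a ha
        have : a = a * (1, 0) := by ext <;> simp [ha]
        rw [this]
        exact x.asIdeal.mul_mem_left _ h2
      · apply h'
        intro a ha
        have : a = a * (0, 1) := by ext <;> simp [ha]
        rw [this]
        exact x.asIdeal.mul_mem_left _ h2

variable [Algebra.FiniteType k C] [Algebra.FiniteType k D]

include hP in
lemma p_prod : P (aff k (C × D)) ↔ P (aff k C) ∧ P (aff k D) := by
  have : Algebra.FiniteType k (C × D) := inferInstance
  constructor
  · intro h
    exact ⟨hP.clopen _ (ft_aff True) (closed_affMap _ Prod.fst_surjective) (open_fst C D) h,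
      hP.clopen _ (ft_aff True) (closed_affMap _ Prod.snd_surjective) (open_snd C D) h⟩
  · rintro ⟨h1, h2⟩
    exact hP.total _ _ (ft_aff True) (triple_prod C D) h1 h2

end prod

section roots

variable (D : Type) [CommRing D] [Algebra k D] [Algebra.FiniteType k D]

include hP in
lemma p_roots (T : Finset k) (hT : T.Nonempty) : P (aff k (AdjoinRoot (sp D T))) ↔ P (aff k D) := by
  have h1 : ∀ (T : Finset k) (c : k) (hc : c ∉ T),
      P (aff k (AdjoinRoot (sp D (Finset.cons c T hc)))) ↔
        P (aff k D) ∧ P (aff k (AdjoinRoot (sp D T))) := by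
    intro T c hc
    rw [← p_prod hP]
    exact ⟨iso_alg hP.toUni (crtA D T c hc), iso_alg hP.toUni (crtA D T c hc).symm⟩
  have h2 : ∀ T : Finset k, P (aff k D) → P (aff k (AdjoinRoot (sp D T))) := by
    intro T h
    induction T using Finset.cons_induction with
    | empty =>
      apply p_empty hP.toBnd
      have : sp D (∅ : Finset k) = 1 := Finset.prod_empty
      rw [this]
      exact Ideal.Quotient.subsingleton_iff.mpr Ideal.span_singleton_one
    | cons c T hc ih => exact (h1 T c hc).mpr ⟨h, ih⟩
  constructor
  · obtain ⟨T', c, hc, rfl⟩ := hT.exists_cons_eq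
    intro h
    exact ((h1 T' c hc).mp h).1
  · exact h2 T

end roots

end Pool.Agent.H95.AS
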