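import Pool.Agent.H95.L.Y116_UV_Defs

/-!
# Artin–Schreier coverings of affine spaces, and morphisms with affine spaces as fibres: definitions
-/

set_option autoImplicit false

open CategoryTheory CategoryTheory.Limits AlgebraicGeometry MvPolynomial

namespace Pool.Agent.H95.AS

open Pool.Agent.Y116.UV

/-- All fibres of `q : X ⟶ Y` are affine spaces of dimension `r`: for every point `y` the fibre
`q⁻¹(y)` is isomorphic, over the residue field `κ(y)`, to the affine space `𝔸^r` over `κ(y)`. -/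
def AffineFibres {X Y : Scheme.{0}} (q : X ⟶ Y) (r : ℕ) : Prop :=
  ∀ y : Y, Nonempty (Over.mk (q.fiberToSpecResidueField y) ≅
    Over.mk (𝔸(Fin r; Spec (Y.residueField y)) ↘ Spec (Y.residueField y)))

/-- The linear form `∑ f_l x_l` with coefficients `f_l ∈ A`. -/
noncomputable def lin {A : Type} [CommRing A] {m : ℕ} (f : Fin m → A) : MvPolynomial (Fin m) A :=
  ∑ l, C (f l) * X l

/-- The ring `A[x_1, …, x_m][w] / (w^p - w - ∑ f_l x_l)`. -/
abbrev ASRing {A : Type} [CommRing A] (p : ℕ) {m : ℕ} (f : Fin m → A) : Type :=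
  AdjoinRoot (Polynomial.X ^ p - Polynomial.X - Polynomial.C (lin f) :
    Polynomial (MvPolynomial (Fin m) A))

variable {k : Type} [Field k]

/-- The polynomial `∏_{c ∈ S} (w - c)` over the `k`-algebra `D`. -/
noncomputable def sp (D : Type) [CommRing D] [Algebra k D] (S : Finset k) : Polynomial D :=
  ∏ c ∈ S, (Polynomial.X - Polynomial.C (algebraMap k D c))

/-- The ring `A[x_1, …, x_m][w] / (∏_{c ∈ S} (w - c) - ∑ f_l x_l)`. -/
abbrev Cov {A : Type} [CommRing A] [Algebra k A] (S : Finset k) {m : ℕ} (f : Fin m → A) : Type :=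
  AdjoinRoot (sp (MvPolynomial (Fin m) A) S - Polynomial.C (lin f))

/-- The closed subscheme `f_1 = … = f_m = 0` of the affine space with the coordinates `σ`. -/
noncomputable def zeroS {σ : Type} {m : ℕ} (f : Fin m → MvPolynomial σ k) : Sch k :=
  aff k (MvPolynomial σ k ⧸ Ideal.span (Set.range f))

/-- The covering `∏_{c ∈ S} (w - c) = ∑ x_l f_l(z)` of the affine space with the coordinates `z_s`,
`s ∈ σ`, and `x_1, …, x_m`. -/
noncomputable def covS (S : Finset k) {σ : Type} {m : ℕ} (f : Fin m → MvPolynomial σ k) : Sch k :=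
  aff k (Cov S f)

/-- The Artin–Schreier covering `w^p - w = ∑ x_l f_l(z)` of the affine space with the coordinates `z_s`,
`s ∈ σ`, and `x_1, …, x_m`. -/
noncomputable def asS (p : ℕ) {σ : Type} {m : ℕ} (f : Fin m → MvPolynomial σ k) : Sch k :=
  aff k (ASRing p f)

/-- The bilinear forms `∑ t_ijl x_i y_j`, `l = 1, …, c`. -/
noncomputable def bq {a b c : ℕ} (t : Fin a → Fin b → Fin c → k) (l : Fin c) :
    MvPolynomial (Fin a ⊕ Fin b) k :=
  ∑ i, ∑ j, C (t i j l) * X (Sum.inl i) * X (Sum.inr j)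

/-- The bilinear forms `∑_{(i, j) ∈ E_l} x_i y_j`, `l = 1, …, c`. -/
noncomputable def bf (k : Type) [Field k] {a b c : ℕ} (E : Fin c → Finset (Fin a × Fin b))
    (l : Fin c) : MvPolynomial (Fin a ⊕ Fin b) k :=
  ∑ e ∈ E l, X (Sum.inl e.1) * X (Sum.inr e.2)

end Pool.Agent.H95.AS
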