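import Pool.Agent.H95.AS.Defs

/-!
# Morphisms with affine spaces as fibres

A criterion for the fibres of the restriction of `Spec B → Spec A` to an open subscheme of `Spec B`
to be affine spaces.
-/

set_option autoImplicit false

open CategoryTheory CategoryTheory.Limits AlgebraicGeometry MvPolynomial TensorProduct

namespace Pool.Agent.H95.AS

lemma isPullback_tensor (A K B : Type) [CommRing A] [CommRing K] [CommRing B] [Algebra A K]
    [Algebra A B] : IsPullback
      (Spec.map (CommRingCat.ofHom (Algebra.TensorProduct.includeRight : B →ₐ[A] K ⊗[A] B).toRingHom))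
      (Spec.map (CommRingCat.ofHom (algebraMap K (K ⊗[A] B))))
      (Spec.map (CommRingCat.ofHom (algebraMap A B)))
      (Spec.map (CommRingCat.ofHom (algebraMap A K))) :=
  (isPullback_SpecMap_of_isPushout _ _ _ _
    (CommRingCat.isPushout_tensorProduct A K B)).flip

/-- The criterion, for one field. -/
lemma iso_fibre {A B K : Type} [CommRing A] [CommRing B] [Field K] [Algebra A B] [Algebra A K]
    (U : (Spec (CommRingCat.of B)).Opens) (r : ℕ) (ψ : K ⊗[A] B →ₐ[K] MvPolynomial (Fin r) K)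
    (hψ : IsOpenImmersion (Spec.map (CommRingCat.ofHom ψ.toRingHom)))
    (hr : Set.range (Spec.map (CommRingCat.ofHom ψ.toRingHom)) =
      (Spec.map (CommRingCat.ofHom
        (Algebra.TensorProduct.includeRight : B →ₐ[A] K ⊗[A] B).toRingHom)) ⁻¹' U) :
    Nonempty (Over.mk (pullback.snd (U.ι ≫ Spec.map (CommRingCat.ofHom (algebraMap A B)))
      (Spec.map (CommRingCat.ofHom (algebraMap A K)))) ≅
      Over.mk (𝔸(Fin r; Spec (CommRingCat.of K)) ↘ Spec (CommRingCat.of K))) := by
  let iR := Spec.map (CommRingCat.ofHom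
    (Algebra.TensorProduct.includeRight : B →ₐ[A] K ⊗[A] B).toRingHom)
  let sψ := Spec.map (CommRingCat.ofHom ψ.toRingHom)
  have hle : Set.range (sψ ≫ iR) ⊆ Set.range U.ι := by
    rw [Scheme.Opens.range_ι]
    rintro _ ⟨y, rfl⟩
    have h1 : sψ y ∈ Set.range sψ := ⟨y, rfl⟩
    rw [hr] at h1
    exact h1
  let g := IsOpenImmersion.lift U.ι (sψ ≫ iR) hle
  have hg : g ≫ U.ι = sψ ≫ iR := IsOpenImmersion.lift_fac _ _ _
  have h1 : IsPullback g sψ U.ι iR := by
    refine IsOpenImmersion.isPullback g sψ U.ι iR hg.symm ?_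
    ext x
    change iR x ∈ Set.range U.ι ↔ x ∈ Set.range sψ
    rw [hr, Scheme.Opens.range_ι]
    rfl
  have h3 : sψ ≫ Spec.map (CommRingCat.ofHom (algebraMap K (K ⊗[A] B))) =
      Spec.map (CommRingCat.ofHom C) := by
    rw [← Spec.map_comp, ← CommRingCat.ofHom_comp]
    congr 2
    exact ψ.comp_algebraMap
  have h2 : IsPullback g (Spec.map (CommRingCat.ofHom (C : K →+* MvPolynomial (Fin r) K)))
      (U.ι ≫ Spec.map (CommRingCat.ofHom (algebraMap A B)))
      (Spec.map (CommRingCat.ofHom (algebraMap A K))) := by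
    rw [← h3]
    exact (h1.flip.paste_horiz (isPullback_tensor A K B).flip).flip
  refine ⟨Over.isoMk (h2.isoPullback.symm ≪≫ (AffineSpace.SpecIso (Fin r) (.of K)).symm) ?_⟩
  change (h2.isoPullback.inv ≫ (AffineSpace.SpecIso (Fin r) (.of K)).inv) ≫
    (𝔸(Fin r; Spec (CommRingCat.of K)) ↘ Spec (CommRingCat.of K)) = pullback.snd _ _
  rw [Category.assoc, AffineSpace.SpecIso_inv_over]
  exact h2.isoPullback_inv_snd

/-- The criterion. -/
lemma affineFibres_of {A B : Type} [CommRing A] [CommRing B] [Algebra A B]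
    (U : (Spec (CommRingCat.of B)).Opens) (r : ℕ)
    (h : ∀ (K : Type) [Field K] [Algebra A K], ∃ ψ : K ⊗[A] B →ₐ[K] MvPolynomial (Fin r) K,
      IsOpenImmersion (Spec.map (CommRingCat.ofHom ψ.toRingHom)) ∧
      Set.range (Spec.map (CommRingCat.ofHom ψ.toRingHom)) =
        (Spec.map (CommRingCat.ofHom
          (Algebra.TensorProduct.includeRight : B →ₐ[A] K ⊗[A] B).toRingHom)) ⁻¹' U) :
    AffineFibres (U.ι ≫ Spec.map (CommRingCat.ofHom (algebraMap A B))) r := by
  intro y
  let K := (Spec (CommRingCat.of A)).residueField y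
  let g : CommRingCat.of A ⟶ K := Spec.preimage ((Spec (CommRingCat.of A)).fromSpecResidueField y)
  let _ : Algebra A K := g.hom.toAlgebra
  have hg : Spec.map (CommRingCat.ofHom (algebraMap A K)) =
      (Spec (CommRingCat.of A)).fromSpecResidueField y := Spec.map_preimage _
  obtain ⟨ψ, h1, h2⟩ := h K
  have h3 := iso_fibre U r ψ h1 h2
  have h4 : ∀ g' : Spec K ⟶ Spec (CommRingCat.of A),
      Spec.map (CommRingCat.ofHom (algebraMap A K)) = g' →
      Nonempty (Over.mk (pullback.snd (U.ι ≫ Spec.map (CommRingCat.ofHom (algebraMap A B))) g') ≅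
        Over.mk (𝔸(Fin r; Spec (CommRingCat.of K)) ↘ Spec (CommRingCat.of K))) := by
    rintro _ rfl
    exact h3
  exact h4 _ hg

end Pool.Agent.H95.AS
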