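import Pool.Agent.H95.AS.Crt

/-!
# Closed-open decompositions of the covers
-/

set_option autoImplicit false

open CategoryTheory CategoryTheory.Limits AlgebraicGeometry MvPolynomial TensorProduct

namespace Pool.Agent.H95.AS

open Pool.Agent.Y116.UV Pool.Agent.Z125.UN

variable {k : Type} [Field k] {P : Sch k → Prop} (hP : Fla P)

section

variable (A : Type) [CommRing A] [Algebra k A] [Algebra.FiniteType k A]

include hP in
lemma p_poly_inv (n : ℕ) (h : P (aff k (MvPolynomial (Fin n) A))) : P (aff k A) := by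
  have h1 : IsOpenImmersion (𝟙 (aff k A) : aff k A ⟶ aff k A).left :=
    inferInstanceAs (IsOpenImmersion (𝟙 (aff k A).left))
  have h2 : Set.range (𝟙 (aff k A) : aff k A ⟶ aff k A).left =
      {x : PrimeSpectrum A | ∃ l, f1 A n l ∉ x.asIdeal} := by
    have h1 : Set.range (𝟙 (aff k A) : aff k A ⟶ aff k A).left = Set.univ := Set.range_id
    have h2 : {x : PrimeSpectrum A | ∃ l, f1 A n l ∉ x.asIdeal} = Set.univ := by
      rw [Set.eq_univ_iff_forall]
      intro x
      exact ⟨0, fun h => x.isPrime.ne_top ((Ideal.eq_top_iff_one _).mpr h)⟩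
    exact h1.trans h2.symm
  refine hP.jouanolou A (n + 1) (f1 A n) (aff k A) (𝟙 _) h1 h2 ?_
  have : Algebra.FiniteType k (MvPolynomial (Fin n) A) :=
    Algebra.FiniteType.trans (S := A) inferInstance inferInstance
  exact iso_alg hP.toUni ((jouOne A n).restrictScalars k).symm h

end

section

variable {A : Type} [CommRing A] [Algebra k A] [Algebra.FiniteType k A]
  (S' : Finset k) (c₀ : k) (hc : c₀ ∉ S') {m : ℕ} (f : Fin m → A)

omit [Algebra.FiniteType k A] in
lemma flat_cov (S : Finset k) (hS : S.Nonempty) : Module.Flat A (Cov S f) := by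
  have h1 := (cov_monic S f hS).free_adjoinRoot
  exact Module.Flat.trans A (MvPolynomial (Fin m) A) (Cov S f)

/-- the closed part -/
noncomputable def thetaK : Cov (Finset.cons c₀ S' hc) f →ₐ[k] WW S' f :=
  (theta S' c₀ hc f).restrictScalars k

omit [Algebra.FiniteType k A] in
lemma thetaK_surj : Function.Surjective (thetaK S' c₀ hc f) := theta_surj S' c₀ hc f

/-- the open part -/
noncomputable def opU : (aff k (Cov (Finset.cons c₀ S' hc) f)).left.Opens :=
  ⟨(Set.range (affMap (thetaK S' c₀ hc f)).left)ᶜ,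
    have := closed_affMap _ (thetaK_surj S' c₀ hc f)
    (affMap (thetaK S' c₀ hc f)).left.isClosedEmbedding.isClosed_range.isOpen_compl⟩

omit [Algebra.FiniteType k A] in
lemma triple_cov : IsTriple (affMap (thetaK S' c₀ hc f)) (opnMap _ (opU S' c₀ hc f)) where
  closed := closed_affMap _ (thetaK_surj S' c₀ hc f)
  opened := inferInstance
  compl := by
    rw [range_opnMap]
    exact (compl_compl _).symm

include hP in
/-- The open part. -/
lemma p_open (hA : P (aff k A)) :
    P (opn (aff k (Cov (Finset.cons c₀ S' hc) f)) (opU S' c₀ hc f)) := by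
  let B := Cov (Finset.cons c₀ S' hc) f
  have hN : IsNoetherianRing B := Algebra.FiniteType.isNoetherianRing k B
  have hft : FT True (opn (aff k B) (opU S' c₀ hc f)) := by
    apply ft_opn (ft_aff True)
    exact TopologicalSpace.NoetherianSpace.isCompact (α := PrimeSpectrum B) _
  let q : opn (aff k B) (opU S' c₀ hc f) ⟶ aff k A :=
    opnMap _ _ ≫ affMap (IsScalarTower.toAlgHom k A B)
  have hflat : Module.Flat A B := flat_cov f _ (Finset.cons_nonempty hc)
  have hq1 : Flat (Spec.map (CommRingCat.ofHom (algebraMap A B))) := by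
    rw [Flat.SpecMap_iff]
    exact RingHom.flat_algebraMap_iff.mpr hflat
  let U : (Spec (CommRingCat.of B)).Opens := opU S' c₀ hc f
  have hq : Flat q.left :=
    inferInstanceAs (Flat (U.ι ≫ Spec.map (CommRingCat.ofHom (algebraMap A B))))
  refine (hP.fibres q m hft (ft_aff True) hq ?_).mp hA
  refine cov_fibres S' c₀ hc f (opU S' c₀ hc f) fun x => ?_
  change x ∈ (Set.range (affMap (thetaK S' c₀ hc f)).left)ᶜ ↔ _
  rw [range_affMap _ (thetaK_surj S' c₀ hc f)]
  exact not_congr (theta_range S' c₀ hc f x)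

end

section

variable {A : Type} [CommRing A] [Algebra k A] [Algebra.FiniteType k A]

include hP in
/-- **Main theorem.** The cover and the zero scheme. -/
theorem cov_iff (hA : P (aff k A)) (S : Finset k) (hS : 2 ≤ S.card) {m : ℕ} (f : Fin m → A) :
    P (aff k (Cov S f)) ↔ P (aff k (A ⧸ Ideal.span (Set.range f))) := by
  have hne : S.Nonempty := Finset.card_pos.mp (by omega)
  obtain ⟨S', c₀, hc, rfl⟩ := hne.exists_cons_eq
  rw [Finset.card_cons] at hS
  have hS' : S'.Nonempty := Finset.card_pos.mp (by omega)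
  have hU := p_open hP S' c₀ hc f hA
  have h1 : P (aff k (Cov (Finset.cons c₀ S' hc) f)) ↔ P (aff k (WW S' f)) :=
    ⟨fun h => hP.closed _ _ (ft_aff True) (triple_cov S' c₀ hc f) h hU,
      fun h => hP.total _ _ (ft_aff True) (triple_cov S' c₀ hc f) h hU⟩
  have h2 : P (aff k (WW S' f)) ↔ P (aff k (DD f)) := p_roots hP (DD f) S' hS'
  rw [h1, h2]
  exact ⟨p_poly_inv hP _ m, p_poly_fin hP.toBnd m⟩

end

end Pool.Agent.H95.AS
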